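import Mathlib
import Pool.Agent.H84.Sy.Flow

set_option autoImplicit false

open scoped ContDiff Topology NNReal
open Set

namespace Pool.Agent.W5h49.EC

section

variable {E : Type} [NormedAddCommGroup E] [NormedSpace ℝ E] [CompleteSpace E]

/-- flow of a constant plus a smooth compactly supported vector field -/
theorem flow_affine (c : E) (X : E → E) (hX : ContDiff ℝ ∞ X) (hc : HasCompactSupport X) :
    ∃ G : ℝ → E → E, ContDiff ℝ ∞ (fun q : ℝ × E => G q.1 q.2) ∧
      (∀ p, G 0 p = p) ∧ (∀ s t p, G (s + t) p = G s (G t p)) ∧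
      (∀ p t, HasDerivAt (fun t => G t p) (c + X (G t p)) t) ∧
      (∀ γ : ℝ → E, (∀ t, HasDerivAt γ (c + X (γ t)) t) → ∀ t, γ t = G t (γ 0)) := by
  obtain ⟨K, hK0⟩ := hX.lipschitzWith_of_hasCompactSupport hc (by simp)
  obtain ⟨M, hM⟩ := hc.exists_bound_of_continuous hX.continuous
  set Y : E → E := fun p => c + X p with hY
  have hYs : ContDiff ℝ ∞ Y := contDiff_const.add hX
  have hK : LipschitzWith K Y := by
    refine LipschitzWith.of_dist_le_mul fun a b => ?_
    rw [hY]
    simp only [dist_add_left]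
    exact hK0.dist_le_mul a b
  have hM' : ∀ x, ‖Y x‖ ≤ (Real.toNNReal (‖c‖ + M) : NNReal) := fun x =>
    ((norm_add_le _ _).trans (by gcongr; exact hM x)).trans (Real.le_coe_toNNReal _)
  choose g h0 h1 using fun p => Pool.Agent.GR.Flow.exists_solution hK hM' p
  have hfl : Pool.Agent.GR.Flow.IsFlowOf Y (fun t p => g p t) := ⟨h0, h1⟩
  refine ⟨fun t p => g p t, ?_, h0, fun s t p => hfl.add hK s t p, h1, ?_⟩
  · rw [contDiff_infty]
    intro m
    have key : ∀ m : ℕ, m ≠ 0 → ContDiff ℝ m (fun q : ℝ × E => g q.2 q.1) := by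
      intro m hm
      exact Pool.Agent.GR.Flow.contDiff_flow (X := ⟨Y, hYs.continuous⟩) hm
        (hYs.of_le (by exact_mod_cast le_top)) hK hfl
    exact (key (m + 1) (by omega)).of_le (by exact_mod_cast Nat.le_succ m)
  · intro γ hγ t
    have h2 : γ = fun t => g (γ 0) t := by
      refine ODE_solution_unique_univ (v := fun _ => Y) (s := fun _ => univ) (K := K) (t₀ := 0)
        (fun t => hK.lipschitzOnWith) (fun t => ⟨hγ t, trivial⟩)
        (fun t => ⟨h1 _ t, trivial⟩) ?_
      rw [h0]
    exact congrFun h2 t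

/-- flow of a smooth compactly supported time dependent vector field -/
theorem flow_time (Y : ℝ × E → E) (hY : ContDiff ℝ ∞ Y) (hc : HasCompactSupport Y) :
    ∃ Φ : ℝ × E → E, ContDiff ℝ ∞ Φ ∧ (∀ x, Φ (0, x) = x) ∧
      (∀ s x, HasDerivAt (fun s => Φ (s, x)) (Y (s, Φ (s, x))) s) ∧
      (∀ s, Function.Bijective (fun x => Φ (s, x))) ∧
      (∀ x, (∀ s, Y (s, x) = 0) → ∀ s, Φ (s, x) = x) := by
  set X : ℝ × E → ℝ × E := fun p => (0, Y p) with hX
  have hXs : ContDiff ℝ ∞ X := contDiff_const.prodMk hY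
  have hXc : HasCompactSupport X := by
    refine hc.mono ?_
    intro p hp h
    apply hp
    simp only [hX, Prod.mk_eq_zero, true_and]
    exact h
  obtain ⟨G, hG, hG0, hGa, hGd, hGu⟩ := flow_affine ((1, 0) : ℝ × E) X hXs hXc
  have hfst : ∀ r s x, (G r (s, x)).1 = s + r := by
    intro r s x
    have h1 : ∀ r, HasDerivAt (fun r => (G r (s, x)).1 - r) 0 r := by
      intro r
      have h2 : HasDerivAt (fun r => (G r (s, x)).1) 1 r := by
        have h3 := (hGd (s, x) r)
        have h4 := (ContinuousLinearMap.fst ℝ ℝ E).hasFDerivAt.comp_hasDerivAt r h3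
        simpa [hX, Function.comp_def] using h4
      have h3 : HasDerivAt (fun r => (G r (s, x)).1 - r) (1 - 1) r := h2.sub (hasDerivAt_id r)
      simpa using h3
    have h2 := is_const_of_deriv_eq_zero (fun r => (h1 r).differentiableAt)
      (fun r => (h1 r).deriv) r 0
    simp only [hG0] at h2
    linarith
  have hsnd : ∀ s x r, HasDerivAt (fun r => (G r (s, x)).2) (Y (G r (s, x))) r := by
    intro s x r
    have h3 := (hGd (s, x) r)
    have h4 := (ContinuousLinearMap.snd ℝ ℝ E).hasFDerivAt.comp_hasDerivAt r h3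
    simpa [hX, Function.comp_def] using h4
  refine ⟨fun q => (G q.1 (0, q.2)).2, ?_, ?_, ?_, ?_, ?_⟩
  · exact contDiff_snd.comp (hG.comp (contDiff_fst.prodMk (contDiff_const.prodMk contDiff_snd)))
  · intro x
    simp [hG0]
  · intro s x
    have h1 := hsnd 0 x s
    have h2 : G s (0, x) = (s, (G s (0, x)).2) := by
      refine Prod.ext ?_ rfl
      simp [hfst]
    rw [h2] at h1
    exact h1
  · intro s
    have e1 : ∀ x, G s (0, x) = (s, (G s (0, x)).2) := by
      intro x
      refine Prod.ext ?_ rfl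
      simp [hfst]
    have e2 : ∀ x, G (-s) (s, x) = (0, (G (-s) (s, x)).2) := by
      intro x
      refine Prod.ext ?_ rfl
      simp [hfst]
    refine Function.bijective_iff_has_inverse.2 ⟨fun y => (G (-s) (s, y)).2, ?_, ?_⟩
    · intro x
      simp only
      rw [← e1 x, ← hGa]
      simp [hG0]
    · intro y
      simp only
      rw [← e2 y, ← hGa]
      simp [hG0]
  · intro x hx s
    have h1 : ((s, x) : ℝ × E) = G s (0, x) :=
      hGu (fun r => ((r, x) : ℝ × E)) (fun t => ?_) s
    · exact (congrArg Prod.snd h1).symm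
    · simp only [hX, hx]
      have h2 := (hasDerivAt_id t).prodMk (hasDerivAt_const t x)
      simpa using h2

end

end Pool.Agent.W5h49.EC
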